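import Pool.Agent.Lib.MP_034ad4_an.Upper
import Pool.Agent.Lib.MP_034ad4_an.LowerB

/-!
The set of points whose asymptotic set under the Gauss map has Hausdorff dimension `1/2` has full
Lebesgue measure in `[0,1)`; in particular its Hausdorff dimension is `1`.
-/

open Set Filter MeasureTheory
open scoped Topology ENNReal NNReal

namespace Pool.Agent.Results.MP_034ad4_an.FullMeasure

open Pool.Agent.Lib.MP_034ad4_an

/-- Almost every `x` in `[0,1)` satisfies `dim_H AS(x) = 1/2`, and `dim_H Θ(G; 1/2) = 1`. -/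
theorem result :
    (∀ᵐ x ∂(volume : Measure ℝ), x ∈ Ico (0:ℝ) 1 → dimH (asym x) = 1/2) ∧
      dimH (Theta (1/2)) = 1 := by
  have hhalf : ((1/2 : ℝ≥0) : ℝ≥0∞) = 1/2 := by
    rw [ENNReal.coe_div (by norm_num)]; simp
  have hae : ∀ᵐ x ∂(volume : Measure ℝ), x ∈ Ico (0:ℝ) 1 → dimH (asym x) = 1/2 := by
    have hirr : ∀ᵐ x ∂(volume : Measure ℝ), Irrational x := by
      have h0 : (volume : Measure ℝ) (Set.range (fun q : ℚ => (q:ℝ))) = 0 :=
        (countable_range _).measure_zero _
      rw [ae_iff]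
      refine measure_mono_null ?_ h0
      intro x hx
      simp only [mem_ofPred_eq, Irrational, not_not] at hx
      exact hx
    filter_upwards [ae_typical, hirr] with x hx hxi hx01
    have hxI : x ∈ Irr := ⟨⟨lt_of_le_of_ne hx01.1 (Ne.symm hxi.ne_zero), hx01.2⟩, hxi⟩
    have ht := hx hxI
    rw [← hhalf]
    apply le_antisymm
    · apply dimH_asym_le hxI
      intro M
      rw [frequently_atTop]
      intro a
      obtain ⟨J, hJ⟩ := ht.2
      obtain ⟨i, hi1, -, hi3⟩ := hJ (J + M + a + 1) (by omega)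
      refine ⟨i, ?_, by omega⟩
      have : J + M + a + 1 ≤ (J + M + a + 1)^3 := Nat.le_self_pow (by norm_num) _
      omega
    · exact le_dimH_asym hxI ht
  refine ⟨hae, le_antisymm ?_ ?_⟩
  · rw [← Real.dimH_univ]
    exact dimH_mono (subset_univ _)
  · by_contra hcon
    push Not at hcon
    have h1 : μH[((1:ℝ≥0) : ℝ)] (Theta (1/2)) = 0 := hausdorffMeasure_of_dimH_lt (by simpa using hcon)
    rw [NNReal.coe_one, hausdorffMeasure_real] at h1
    have h2 : (volume : Measure ℝ) (Ico (0:ℝ) 1) = 0 := by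
      have h3 : ∀ᵐ x ∂(volume : Measure ℝ), x ∉ Theta (1/2) := measure_eq_zero_iff_ae_notMem.1 h1
      rw [measure_eq_zero_iff_ae_notMem]
      filter_upwards [hae, h3] with x hx1 hx2 hx3
      exact hx2 ⟨hx3, hx1 hx3⟩
    rw [Real.volume_Ico] at h2
    simp at h2

end Pool.Agent.Results.MP_034ad4_an.FullMeasure
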